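import Pool.Agent.helper69.LN.TSpec

/-! Row TPC of project LN (MP_069684_lc), part T: polynomial size. -/

set_option autoImplicit false

namespace Pool.Agent.LN

open Finset Pool.Agent.helper38.Neg Pool.Agent.helper55.NT

theorem TPC (hORC : ORC_stmt) (hTUP : TUP_stmt) (hTFO : TFO_stmt) (hTNP : TNP_stmt)
    (hTGR : TGR_stmt) (hTFP : TFP_stmt) : TPC_stmt := by
  intro u r
  obtain ⟨f1, f2, f3⟩ := hTFO
  refine ⟨?_, ?_⟩
  · rintro ⟨c, hc⟩
    constructor
    · intro h A hA hm
      obtain ⟨p, hp⟩ := h A hA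
      refine ⟨Polynomial.C (18 * (2 * c + 1)) * (p + 5 * Polynomial.X + 6) *
        (Polynomial.X + Polynomial.X + 2) ^ (2 * c + 1 + 2) + Polynomial.X + 1 +
        ((Polynomial.X + 2) ^ (2 * c) * (p + Polynomial.X + 8) + 2), fun n => ?_⟩
      obtain ⟨s, hs, C, o, hC⟩ := hp n
      have hev : (Polynomial.C (18 * (2 * c + 1)) * (p + 5 * Polynomial.X + 6) *
        (Polynomial.X + Polynomial.X + 2) ^ (2 * c + 1 + 2) + Polynomial.X + 1 +
        ((Polynomial.X + 2) ^ (2 * c) * (p + Polynomial.X + 8) + 2)).eval n =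
        18 * (2 * c + 1) * (p.eval n + 5 * n + 6) * (n + n + 2) ^ (2 * c + 1 + 2) + n + 1 +
        ((n + 2) ^ (2 * c) * (p.eval n + n + 8) + 2) := by
        simp only [Polynomial.eval_mul, Polynomial.eval_C, Polynomial.eval_add,
          Polynomial.eval_one, Polynomial.eval_pow, Polynomial.eval_X, Polynomial.eval_ofNat]
      rw [hev]
      have hs' : s ≤ p.eval n := hs
      have h1 : min (u n) n ≤ 2 * c * 2 ^ r n ∨ min (u n) n ≤ 2 * c * lg n := by
        have h2 := hc n
        by_contra hcon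
        rw [not_or, not_le, not_le] at hcon
        nlinarith [hcon.1, hcon.2]
      rcases h1 with h1 | h1
      · have h2 : min (u n) n + 1 ≤ (2 * c + 1) * 2 ^ r n := by
          have h3 : 1 ≤ 2 ^ r n := Nat.one_le_two_pow
          nlinarith
        obtain ⟨s', hs1, C', o', hC', hF⟩ := hTUP n s (u n) (2 * c + 1) (r n) C o (A n) hC (hm n)
          (by omega) h2
        refine ⟨s', le_trans hs1 ?_, C', o', hC', hF⟩
        have h4 : 18 * (2 * c + 1) * (s + 5 * n + 6) * (n + n + 2) ^ (2 * c + 1 + 2) ≤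
            18 * (2 * c + 1) * (p.eval n + 5 * n + 6) * (n + n + 2) ^ (2 * c + 1 + 2) := by
          gcongr
        omega
      · set m := min (u n) n with hmdef
        have hmm : MonoIn m (A n) := by
          intro x y hxy hag hf
          exact hm n x y hxy ((f3 n (u n) x y).2 hag) hf
        obtain ⟨s', hs1, C', o', hC', hF⟩ := hORC n s m C o (A n) hC hmm
        have h5 : FewDep m (r n) C' := f2 n s' m 0 (r n) C' (f1 n s' m C' hF) (Nat.zero_le _)
        have h6 : FewDep (u n) (r n) C' := by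
          obtain ⟨S, hS1, hS2⟩ := h5
          exact ⟨S, hS1, fun x y hxy => hS2 x y ((f3 n (u n) x y).1 hxy)⟩
        refine ⟨s', le_trans hs1 ?_, C', o', hC', h6⟩
        have h7 : 2 ^ m ≤ (n + 2) ^ (2 * c) := by
          calc 2 ^ m ≤ 2 ^ (lg n * (2 * c)) := Nat.pow_le_pow_right (by norm_num)
                (by rw [mul_comm (lg n)]; exact h1)
            _ = (2 ^ lg n) ^ (2 * c) := by rw [pow_mul]
            _ ≤ (n + 2) ^ (2 * c) := Nat.pow_le_pow_left
                (Nat.pow_log_le_self 2 (by omega)) _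
        have h8 : m ≤ n := min_le_right _ _
        have h9 : 2 ^ m * (s + m + 8) ≤ (n + 2) ^ (2 * c) * (p.eval n + n + 8) :=
          Nat.mul_le_mul h7 (by omega)
        omega
    · intro h A hA
      obtain ⟨p, hp⟩ := h (dbl A) (dbl_inNPPoly A hA)
        (fun n x y hxy _ hf => dbl_mono A n hxy hf)
      refine ⟨Polynomial.X + 2 * p.comp (Polynomial.X + Polynomial.X), fun n => ?_⟩
      obtain ⟨s, hs, C, o, hC, -⟩ := hp (n + n)
      obtain ⟨s', hs', C', o', h1⟩ := dbl_circuit A n s C o hC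
      refine ⟨s', hs'.trans ?_, C', o', h1⟩
      simp only [Polynomial.eval_add, Polynomial.eval_X, Polynomial.eval_mul,
        Polynomial.eval_ofNat, Polynomial.eval_comp]
      have : s ≤ p.eval (n + n) := hs
      omega
  · intro h
    obtain ⟨g1, g2⟩ := hTNP u
    obtain ⟨p, hp⟩ := h (PL u) g1 (fun n x y hxy _ hf => g2 n hxy hf)
    obtain ⟨k, hk⟩ := eval_le_two_pow p
    obtain ⟨c, hc⟩ := hTGR u (fun n => 2 ^ r n) k 1 (fun n => by
      obtain ⟨s, hs, C, o, hC, hF⟩ := hp n
      exact ⟨s, le_trans hs (hk n), C, o, hC, hTFP n s (u n) (r n) C hF⟩)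
    exact ⟨c, hc⟩

end Pool.Agent.LN
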