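import Pool.Agent.helper69.LN.Spec

/-! Row PCR of project LN (MP_069684_lc): the two-sided theorem for polynomial size. -/

set_option autoImplicit false

namespace Pool.Agent.LN

open Finset Pool.Agent.helper38.Neg Pool.Agent.helper55.NT

theorem PCR (h1 : ORC_stmt) (h2 : PNP_stmt) (h3 : PCI_stmt) (h4 : PMO_stmt) (h5 : ARI_stmt) :
    PCR_stmt := by
  intro u hu
  obtain ⟨c, hc⟩ := hu
  constructor
  · intro h A hA hm
    obtain ⟨p, hp⟩ := h A hA
    refine ⟨(Polynomial.X ^ c + Polynomial.C c) * (p + (Polynomial.X ^ c + Polynomial.C c) +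
      Polynomial.C 8) + Polynomial.C 2, fun n => ?_⟩
    obtain ⟨s, hs, C, o, hC⟩ := hp n
    obtain ⟨s', hs', C', o', hC', hF⟩ := h1 n s (u n) C o (A n) hC (hm n)
    refine ⟨s', ?_, C', o', hC', hF⟩
    have e : ((Polynomial.X ^ c + Polynomial.C c) * (p + (Polynomial.X ^ c + Polynomial.C c) +
      Polynomial.C 8) + Polynomial.C 2).eval n =
      (n ^ c + c) * (p.eval n + (n ^ c + c) + 8) + 2 := by
      simp only [Polynomial.eval_add, Polynomial.eval_mul, Polynomial.eval_pow,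
        Polynomial.eval_X, Polynomial.eval_C]
    rw [e]
    have hu1 : u n ≤ n ^ c + c := le_trans (Nat.lt_two_pow_self).le (hc n)
    calc s' ≤ 2 ^ u n * (s + u n + 8) + 2 := hs'
      _ ≤ (n ^ c + c) * (p.eval n + (n ^ c + c) + 8) + 2 := by
        have := Nat.mul_le_mul (hc n) (show s + u n + 8 ≤ p.eval n + (n ^ c + c) + 8 by omega)
        omega
  · intro h A hA
    obtain ⟨c₀, hc₀⟩ := h5.1 c
    have hu0 := hc₀ u hc
    obtain ⟨p, hp⟩ := h (Pd c₀ A) (h2 c₀ A hA) (h4 c₀ u A hu0)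
    refine ⟨Polynomial.C 2 + p.comp (Polynomial.X + Polynomial.C c₀ + Polynomial.X), fun n => ?_⟩
    obtain ⟨s, hs, C, o, hC, _⟩ := hp (n + c₀ + n)
    obtain ⟨C', o', hC'⟩ := h3 c₀ n s A C o hC
    refine ⟨2 + s, ?_, C', o', hC'⟩
    have e : (Polynomial.C 2 + p.comp (Polynomial.X + Polynomial.C c₀ + Polynomial.X)).eval n =
      2 + p.eval (n + c₀ + n) := by
      simp only [Polynomial.eval_add, Polynomial.eval_comp, Polynomial.eval_X, Polynomial.eval_C]
    rw [e]
    omega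

end Pool.Agent.LN
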